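import Mathlib
import Pool.Agent.H207.GF.Fam
import Pool.Agent.H207.CS.Lim

/-! Maps with many attracted critical points in analytic families of rational maps: near a rational
map for which the set of points not attracted by attracting cycles has zero area, an analytic
subset of dimension `n` of a family of pairwise not conjugate maps contains maps for which `n`
critical points are attracted by attracting cycles and have infinite pairwise disjoint orbits, and
a bound of the distance by the area in general. -/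

set_option autoImplicit false

open Topology Filter MeasureTheory Metric Polynomial

namespace Pool.Agent.Results.MP_8f2e1c_an.AnalyticFamilies

/-- `f` is the rational map `P / Q` on the Riemann sphere. -/
def IsRationalMap (P Q : Polynomial ℂ) (f : OnePoint ℂ → OnePoint ℂ) : Prop :=
  Continuous f ∧ ∀ z : ℂ, Q.eval z ≠ 0 →
    f (OnePoint.some z) = OnePoint.some (P.eval z / Q.eval z)

/-- `P / Q` is a rational map `f` of degree `d` on the Riemann sphere. -/
def IsRationalOfDegree (d : ℕ) (P Q : Polynomial ℂ) (f : OnePoint ℂ → OnePoint ℂ) : Prop :=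
  IsCoprime P Q ∧ max P.natDegree Q.natDegree = d ∧ IsRationalMap P Q f

/-- `f` and `g` are conjugate by a rational map of degree one (a Möbius transformation). -/
def MobiusConjugate (f g : OnePoint ℂ → OnePoint ℂ) : Prop :=
  ∃ (A B : Polynomial ℂ) (h : OnePoint ℂ → OnePoint ℂ), IsRationalOfDegree 1 A B h ∧
    ∀ z : OnePoint ℂ, h (f z) = g (h z)

/-- `a` is a point of an attracting cycle of `f` whose period divides `n`: `f^n` fixes `a` and the
iterates of `f^n` converge to `a` uniformly on a neighbourhood of `a`. -/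
def IsSink (f : OnePoint ℂ → OnePoint ℂ) (n : ℕ) (a : OnePoint ℂ) : Prop :=
  0 < n ∧ f^[n] a = a ∧
    ∃ U ∈ nhds a, ∀ V ∈ nhds a, ∀ᶠ k : ℕ in Filter.atTop, ∀ w ∈ U, f^[n * k] w ∈ V

/-- `z` is in the basin of an attracting cycle of `f`. -/
def Attracted (f : OnePoint ℂ → OnePoint ℂ) (z : OnePoint ℂ) : Prop :=
  ∃ (n : ℕ) (a : OnePoint ℂ), IsSink f n a ∧
    Filter.Tendsto (fun k : ℕ => f^[n * k] z) Filter.atTop (nhds a)

/-- Spherical area. -/
noncomputable def sphericalArea (E : Set ℂ) : ENNReal :=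
  ∫⁻ z in E, ENNReal.ofReal (1 / (1 + ‖z‖ ^ 2) ^ 2)

/-- The linear factor of a point of the sphere: `X - a` for a finite point `a`, and `1` for the point
at infinity. -/
noncomputable def factor (z : OnePoint ℂ) : Polynomial ℂ :=
  match z with
  | none => 1
  | some a => X - C a

/-- The list `c` consists of the `2 d - 2` critical points of the rational map `P / Q` of degree `d`
on the sphere, repeated according to their multiplicities: `P' Q - P Q'` is a constant multiple of
the product of the linear factors of the finite points of the list; the multiplicity of infinity as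
a critical point is `2 d - 2` minus the degree of `P' Q - P Q'`. -/
def CriticalPoints {d : ℕ} (P Q : Polynomial ℂ) (c : Fin (2 * d - 2) → OnePoint ℂ) : Prop :=
  ∃ K : ℂ, K ≠ 0 ∧ derivative P * Q - P * derivative Q = C K * ∏ i, factor (c i)

/-- The points `c i` with `i ∈ I` are in the basins of attracting cycles of `f`, their orbits are
infinite, and these orbits are pairwise disjoint. -/
def FreelyAttracted {n : ℕ} (f : OnePoint ℂ → OnePoint ℂ) (c : Fin n → OnePoint ℂ)
    (I : Finset (Fin n)) : Prop :=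
  (∀ i ∈ I, Attracted f (c i)) ∧
  (∀ i ∈ I, ∀ a b : ℕ, f^[a] (c i) = f^[b] (c i) → a = b) ∧
  ∀ i ∈ I, ∀ j ∈ I, i ≠ j → ∀ a b : ℕ, f^[a] (c i) ≠ f^[b] (c j)

/-- The coefficients of `P` and `Q` (up to degree `d`) as a point of the space `ℂ ^ (2 d + 2)`. -/
noncomputable def coefficientVector (d : ℕ) (P Q : Polynomial ℂ) : Fin 2 × Fin (d + 1) → ℂ :=
  fun e => if e.1 = 0 then P.coeff e.2 else Q.coeff e.2

open Pool.Agent.H790R3.RB (CV hF cr ND wr sp pr hc HypTop Attd Sink pol wr_contDiff cr_smul_left)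
open Pool.Agent.H207.CS

theorem factor_eq (z : OnePoint ℂ) : ∃ s : ℂ, s ≠ 0 ∧ factor z = C s * qf z := by
  induction z using OnePoint.rec with
  | infty =>
    refine ⟨-1, by norm_num, ?_⟩
    change (1 : ℂ[X]) = C (-1) * (-1)
    rw [map_neg, map_one]
    ring
  | coe z =>
    refine ⟨1, one_ne_zero, ?_⟩
    change (X - C z : ℂ[X]) = C 1 * (X - C z)
    rw [map_one, one_mul]

theorem prod_factor {n : ℕ} (c : Fin n → OnePoint ℂ) :
    ∃ s : ℂ, s ≠ 0 ∧ ∏ i, factor (c i) = C s * ∏ i, qf (c i) := by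
  choose s hs h using fun i => factor_eq (c i)
  refine ⟨∏ i, s i, Finset.prod_ne_zero_iff.2 fun i _ => hs i, ?_⟩
  rw [Finset.prod_congr rfl (fun i _ => h i), Finset.prod_mul_distrib, map_prod]

theorem crit_iff {d : ℕ} (hd : 2 ≤ d) (x : CV d) (c : Fin (2 * d - 2) → OnePoint ℂ) :
    CriticalPoints (pol x 0) (pol x 1) c ↔ HC x c := by
  obtain ⟨s, hs, hfac⟩ := prod_factor c
  have hd0 : (d : ℂ) ≠ 0 := by
    have : d ≠ 0 := by omega
    exact_mod_cast this
  have hwn : ∀ ζ : ℂ, wr x (ζ, 1) =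
      d * (derivative (pol x 0) * pol x 1 - pol x 0 * derivative (pol x 1)).eval ζ := fun ζ =>
    Pool.Agent.W440.RE.GENM.wr_wn x ζ
  have hq : ∀ ζ : ℂ, (∏ i, qf (c i)).eval ζ = ∏ i, cr (ζ, 1) (hc (c i)) := by
    intro ζ
    rw [eval_prod]
    exact Finset.prod_congr rfl fun i _ => qf_eval _ _
  constructor
  · rintro ⟨K, hK, h⟩
    refine ⟨d * (K * s), mul_ne_zero hd0 (mul_ne_zero hK hs), ?_⟩
    have hdense : Dense {p : ℂ × ℂ | p.2 ≠ 0} :=
      Pool.Agent.W63.REGENX.dense_ne differentiable_snd (x₁ := ((0, 1) : ℂ × ℂ)) one_ne_zero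
    have hc1 : Continuous (fun p : ℂ × ℂ => wr x p) := by
      have h1 : Continuous (fun q : CV d × (ℂ × ℂ) => wr q.1 q.2) := (wr_contDiff d 1).continuous
      have h2 := h1.comp (Continuous.prodMk_right x)
      exact h2
    have hc2 : Continuous (fun p : ℂ × ℂ => d * (K * s) * ∏ i, cr p (hc (c i))) := by
      refine continuous_const.mul (continuous_finsetProd _ fun i _ => ?_)
      unfold cr
      fun_prop
    have heq := Continuous.ext_on hdense hc1 hc2 (by
      intro p hp
      have hp2 : p.2 ≠ 0 := hp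
      have e : p = p.2 • ((p.1 / p.2, 1) : ℂ × ℂ) := by
        ext
        · simp [mul_div_cancel₀ _ hp2]
        · simp
      show wr x p = d * (K * s) * ∏ i, cr p (hc (c i))
      rw [e, (Pool.Agent.H790R3.RB.WR d x hd).1, hwn, h, hfac, eval_mul, eval_mul, eval_C, eval_C,
        hq]
      have e2 : ∀ i, cr (p.2 • ((p.1 / p.2, 1) : ℂ × ℂ)) (hc (c i)) =
          p.2 * cr (p.1 / p.2, 1) (hc (c i)) := fun i => cr_smul_left _ _ _
      rw [Finset.prod_congr rfl (fun i _ => e2 i), Finset.prod_mul_distrib, Finset.prod_const,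
        Finset.card_univ, Fintype.card_fin]
      ring)
    exact fun p => congrFun heq p
  · rintro ⟨K, hK, h⟩
    refine ⟨K / (d * s), div_ne_zero hK (mul_ne_zero hd0 hs), ?_⟩
    apply Polynomial.funext
    intro ζ
    have h1 := hwn ζ
    rw [h, ← hq] at h1
    apply mul_left_cancel₀ hd0
    rw [← h1, hfac, eval_mul, eval_mul, eval_C, eval_C]
    field_simp

theorem close_vec {d : ℕ} {x y : CV d} {r : ℝ} (hr : 0 < r)
    (h : ∀ i : ℕ, ‖(pol x 0).coeff i - (pol y 0).coeff i‖ < r ∧
      ‖(pol x 1).coeff i - (pol y 1).coeff i‖ < r) : ‖x - y‖ < r := by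
  rw [pi_norm_lt_iff hr]
  rintro ⟨i, j⟩
  have e1 := Pool.Agent.H790R3.RB.PQ.pol_coeff x i j
  have e2 := Pool.Agent.H790R3.RB.PQ.pol_coeff y i j
  rw [Pi.sub_apply, ← e1, ← e2]
  fin_cases i
  · exact (h j).1
  · exact (h j).2

theorem coeff_vec {d : ℕ} (x y : CV d) (i : Fin 2) (j : ℕ) :
    ‖(pol x i).coeff j - (pol y i).coeff j‖ ≤ ‖x - y‖ := by
  by_cases hj : d < j
  · rw [Pool.Agent.H790R3.RB.PQ.pol_coeff_gt x i j hj,
      Pool.Agent.H790R3.RB.PQ.pol_coeff_gt y i j hj, sub_zero, norm_zero]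
    exact norm_nonneg _
  · have e1 := Pool.Agent.H790R3.RB.PQ.pol_coeff x i ⟨j, by omega⟩
    have e2 := Pool.Agent.H790R3.RB.PQ.pol_coeff y i ⟨j, by omega⟩
    simp only at e1 e2
    rw [e1, e2]
    exact norm_le_pi_norm (x - y) (i, ⟨j, by omega⟩)

theorem cv_pol {d : ℕ} (x : CV d) : coefficientVector d (pol x 0) (pol x 1) = x := by
  funext e
  obtain ⟨i, j⟩ := e
  unfold coefficientVector
  fin_cases i
  · exact Pool.Agent.H790R3.RB.PQ.pol_coeff x 0 j
  · exact Pool.Agent.H790R3.RB.PQ.pol_coeff x 1 j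

theorem free_of {d : ℕ} {y : CV d} {c : Fin (2 * d - 2) → OnePoint ℂ}
    {I : Finset (Fin (2 * d - 2))} (h : Pool.Agent.H207.GF.Dis y c I) :
    FreelyAttracted (sp y) c I := ⟨h.att, h.inf, h.dis⟩

open Pool.Agent.W364.NM (ap dt) in
theorem mob_of {d : ℕ} (hd : 1 ≤ d) {x y : CV d} (hx : ND x) (hy : ND y)
    {M : (ℂ × ℂ) × (ℂ × ℂ)} (hM : dt M ≠ 0) {e : ℂ} (he : e ≠ 0)
    (hrel : ∀ p, hF x (ap M p) = e • ap M (hF y p)) : MobiusConjugate (sp y) (sp x) := by
  obtain ⟨h, hh, -⟩ := Pool.Agent.H790R3.RB.MOB Pool.Agent.H790R3.RB.SP M.1.1 M.1.2 M.2.1 M.2.2 hM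
  have hh' : ∀ p : ℂ × ℂ, p ≠ 0 → h (pr p) = pr (ap M p) := hh
  have hsemi : ∀ z, h (sp y z) = sp x (h z) := fun z =>
    Pool.Agent.W364.NM.semi hd hy hx hM he hrel h hh' z
  have hM' : M.1.1 * M.2.2 - M.1.2 * M.2.1 ≠ 0 := hM
  refine ⟨C M.1.1 * X + C M.1.2, C M.2.1 * X + C M.2.2, h, ⟨?_, ?_, h.continuous, ?_⟩, hsemi⟩
  · refine ⟨C (-(M.2.1 / (M.1.1 * M.2.2 - M.1.2 * M.2.1))),
      C (M.1.1 / (M.1.1 * M.2.2 - M.1.2 * M.2.1)), ?_⟩
    apply Polynomial.funext
    intro z
    simp only [eval_add, eval_mul, eval_C, eval_X, eval_one]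
    have e1 : -(M.2.1 / (M.1.1 * M.2.2 - M.1.2 * M.2.1)) * (M.1.1 * z + M.1.2) +
        M.1.1 / (M.1.1 * M.2.2 - M.1.2 * M.2.1) * (M.2.1 * z + M.2.2) =
        (M.1.1 * M.2.2 - M.1.2 * M.2.1) / (M.1.1 * M.2.2 - M.1.2 * M.2.1) := by ring
    rw [e1, div_self hM']
  · apply le_antisymm
    · exact max_le (natDegree_linear_le) (natDegree_linear_le)
    · by_cases h0 : M.1.1 = 0
      · have h1 : M.2.1 ≠ 0 := by
          intro h1
          apply hM'
          rw [h0, h1]
          ring
        exact le_max_of_le_right (natDegree_linear h1).ge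
      · exact le_max_of_le_left (natDegree_linear h0).ge
  · intro z hz
    have hp : ((z, 1) : ℂ × ℂ) ≠ 0 := fun h0 => one_ne_zero (congrArg Prod.snd h0)
    have h1 := hh' _ hp
    have e1 : pr ((z, 1) : ℂ × ℂ) = OnePoint.some z := by
      unfold Pool.Agent.H790R3.RB.pr
      rw [if_neg one_ne_zero, div_one]
    have e2 : ap M ((z, 1) : ℂ × ℂ) =
        ((C M.1.1 * X + C M.1.2 : ℂ[X]).eval z, (C M.2.1 * X + C M.2.2 : ℂ[X]).eval z) := by
      apply Prod.ext
      · simp [ap]
      · simp [ap]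
    rw [e1, e2] at h1
    rw [h1]
    unfold Pool.Agent.H790R3.RB.pr
    rw [if_neg hz]

/-- **Result.** Let `d ≥ 2`.
(A) Let `f l = P l / Q l`, `l ∈ Λ`, be a holomorphic family of rational maps of degree `d`,
parametrised by an open set `Λ` of `ℂ ^ m`, let `G j`, `j < k`, be holomorphic functions on `Λ`, and
let `l₀` be a point of the analytic set `V = {G = 0}`. Assume that `l₀` is isolated among the
points `l` of `V` for which `f l` is conjugate to `f l₀` by a Möbius transformation, that no critical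
point of `f l₀` is periodic, and that the set of points of the plane which are not in the basins of
attracting cycles of `f l₀` has zero area. Then there are points `l ∈ V` arbitrarily close to `l₀` for
which at least `m - k` critical points of `f l` are in the basins of attracting cycles and have
infinite pairwise disjoint orbits.
(B) Let `0 < γ < 1 / 2` and let `P₀ / Q₀` be a rational map of degree `d`. There are `C` and `δ > 0`
such that for every rational map `f = P / Q` of degree `d` without periodic critical points and with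
coefficients at distance less than `δ` from those of `P₀ / Q₀`, and every `0 < a < δ` such that the
spherical area of the set of points which are not in the basins of attracting cycles of `f` is at
most `a`: any `k` functions which are holomorphic on the ball with radius `C a ^ γ` about the
coefficient vector of `(P, Q)` and vanish at its centre have a common zero in this ball which is the
coefficient vector of a rational map `P' / Q'` of degree `d` such that at least `2 d - 2 - k` critical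
points are in the basins of attracting cycles and have infinite pairwise disjoint orbits. -/
theorem result (d : ℕ) (hd : 2 ≤ d) :
    (∀ (m k : ℕ) (Λ : Set (Fin m → ℂ)) (P Q : (Fin m → ℂ) → Polynomial ℂ)
      (f : (Fin m → ℂ) → OnePoint ℂ → OnePoint ℂ) (G : Fin k → (Fin m → ℂ) → ℂ)
      (l₀ : Fin m → ℂ) (c : Fin (2 * d - 2) → OnePoint ℂ), IsOpen Λ → l₀ ∈ Λ →
      (∀ l ∈ Λ, IsRationalOfDegree d (P l) (Q l) (f l)) →
      (∀ i : ℕ, DifferentiableOn ℂ (fun l => (P l).coeff i) Λ ∧
        DifferentiableOn ℂ (fun l => (Q l).coeff i) Λ) →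
      (∀ j, DifferentiableOn ℂ (G j) Λ) → (∀ j, G j l₀ = 0) →
      (∃ r : ℝ, 0 < r ∧ ∀ l ∈ Λ, ‖l - l₀‖ < r → (∀ j, G j l = 0) →
        MobiusConjugate (f l) (f l₀) → l = l₀) →
      CriticalPoints (P l₀) (Q l₀) c → (∀ n : ℕ, 1 ≤ n → ∀ i, (f l₀)^[n] (c i) ≠ c i) →
      volume {z : ℂ | ¬ Attracted (f l₀) (OnePoint.some z)} = 0 →
      ∀ ε : ℝ, 0 < ε → ∃ l ∈ Λ, ‖l - l₀‖ < ε ∧ (∀ j, G j l = 0) ∧
        ∃ (c' : Fin (2 * d - 2) → OnePoint ℂ) (I : Finset (Fin (2 * d - 2))),
          CriticalPoints (P l) (Q l) c' ∧ m ≤ I.card + k ∧ FreelyAttracted (f l) c' I) ∧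
    (∀ (γ : ℝ) (P₀ Q₀ : Polynomial ℂ) (f₀ : OnePoint ℂ → OnePoint ℂ), 0 < γ → γ < 1 / 2 →
      IsRationalOfDegree d P₀ Q₀ f₀ →
      ∃ C δ : ℝ, 0 < C ∧ 0 < δ ∧
        ∀ (P Q : Polynomial ℂ) (f : OnePoint ℂ → OnePoint ℂ)
          (c : Fin (2 * d - 2) → OnePoint ℂ), IsRationalOfDegree d P Q f →
          ‖coefficientVector d P Q - coefficientVector d P₀ Q₀‖ < δ →
          CriticalPoints P Q c → (∀ n : ℕ, 1 ≤ n → ∀ i, f^[n] (c i) ≠ c i) →
          ∀ a : ℝ, 0 < a → a < δ →
            sphericalArea {z : ℂ | ¬ Attracted f (OnePoint.some z)} ≤ ENNReal.ofReal a →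
            ∀ (k : ℕ) (G : Fin k → (Fin 2 × Fin (d + 1) → ℂ) → ℂ),
              (∀ j, DifferentiableOn ℂ (G j) (ball (coefficientVector d P Q) (C * a ^ γ))) →
              (∀ j, G j (coefficientVector d P Q) = 0) →
              ∃ (P' Q' : Polynomial ℂ) (f' : OnePoint ℂ → OnePoint ℂ)
                (c' : Fin (2 * d - 2) → OnePoint ℂ) (I : Finset (Fin (2 * d - 2))),
                IsRationalOfDegree d P' Q' f' ∧
                coefficientVector d P' Q' ∈ ball (coefficientVector d P Q) (C * a ^ γ) ∧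
                (∀ j, G j (coefficientVector d P' Q') = 0) ∧ CriticalPoints P' Q' c' ∧
                2 * d ≤ I.card + k + 2 ∧ FreelyAttracted f' c' I) := by
  have hd1 : 1 ≤ d := by omega
  obtain ⟨h1, h2⟩ := Pool.Agent.H790R3.RB.PQ Pool.Agent.H790R3.RB.SP d hd1
  refine ⟨?_, ?_⟩
  · intro m k Λ P Q f G l₀ c hΛ hl₀ hrat hcoef hG hG₀ hiso hc hper h0 ε hε
    obtain ⟨r, hr, hiso⟩ := hiso
    -- the coefficient vectors
    have hX : ∀ l ∈ Λ, ND (coefficientVector d (P l) (Q l)) ∧
        pol (coefficientVector d (P l) (Q l)) 0 = P l ∧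
        pol (coefficientVector d (P l) (Q l)) 1 = Q l ∧
        f l = sp (coefficientVector d (P l) (Q l)) := by
      intro l hl
      obtain ⟨hco, hmax, hf⟩ := hrat l hl
      obtain ⟨x, hx, hP, hQ, hfe⟩ := h2 (P l) (Q l) hco hmax
      have hfx : f l = sp x := hfe (f l) hf.1 hf.2
      have e : coefficientVector d (P l) (Q l) = x := by
        rw [← hP, ← hQ]
        exact cv_pol x
      rw [e]
      exact ⟨hx, hP, hQ, hfx⟩
    have hXd : DifferentiableOn ℂ (fun l => (coefficientVector d (P l) (Q l) : CV d)) Λ := by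
      rw [differentiableOn_pi]
      rintro ⟨i, j⟩
      unfold coefficientVector
      fin_cases i
      · exact (hcoef j).1
      · exact (hcoef j).2
    obtain ⟨g1, g2, g3, g4⟩ := hX l₀ hl₀
    have hc' : HC (coefficientVector d (P l₀) (Q l₀) : CV d) c := by
      apply (crit_iff hd _ c).1
      rw [g2, g3]
      exact hc
    obtain ⟨l, hl, hlε, hGl, c', I, hHC, hcard, hDis⟩ := Pool.Agent.H207.GF.fam_main hd hΛ hXd
      (fun l hl => (hX l hl).1) hG hl₀ hG₀ hr
      (fun l hl hlr hGl hM => hiso l hl hlr hGl (by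
        obtain ⟨M, hM, e, he, hrel⟩ := hM
        rw [(hX l hl).2.2.2, g4]
        exact mob_of hd1 g1 (hX l hl).1 hM he hrel)) hc'
      (by rw [← g4]; exact hper) (by rw [← g4]; exact h0) hε
    obtain ⟨k1, k2, k3, k4⟩ := hX l hl
    refine ⟨l, hl, hlε, hGl, c', I, ?_, by omega, ?_⟩
    · have h5 := (crit_iff hd _ c').2 hHC
      rw [k2, k3] at h5
      exact h5
    · rw [k4]
      exact free_of hDis
  · intro γ P₀ Q₀ f₀ hγ hγ2 hf₀
    obtain ⟨hco₀, hmax₀, -⟩ := hf₀
    obtain ⟨x₀, hx₀, rfl, rfl, -⟩ := h2 P₀ Q₀ hco₀ hmax₀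
    obtain ⟨C, δ, hC, hδ, H⟩ := Pool.Agent.H207.GF.p_PGEN γ d x₀ hγ hγ2 hd hx₀
    refine ⟨C, δ, hC, hδ, ?_⟩
    intro P Q f c hf hclose hc hper a ha haδ harea k G hG hG₀
    obtain ⟨hco, hmax, hf⟩ := hf
    obtain ⟨x, hx, rfl, rfl, hfe⟩ := h2 P Q hco hmax
    have hfx : f = sp x := hfe f hf.1 hf.2
    subst hfx
    rw [cv_pol, cv_pol] at hclose
    rw [cv_pol] at hG hG₀ ⊢
    have hCon := H x hclose c ((crit_iff hd x c).1 hc) hper a ha haδ harea
    obtain ⟨y, t, c', I, hy, -, hGy, hNDy, hHC, hcard, hDis⟩ := hCon 0 k Set.univ {0}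
      (fun j p => G j p.1) isOpen_univ isCompact_singleton (Set.subset_univ _)
      (fun j => (hG j).comp differentiable_fst.differentiableOn fun p hp => hp.1)
      (fun y hy t ht h => Subsingleton.elim _ _) 0 (Set.mem_univ _) hG₀
    obtain ⟨k1, k2, -, -, k5⟩ := h1 y hNDy
    refine ⟨pol y 0, pol y 1, sp y, c', I, ⟨k1, k2, (Pool.Agent.H790R3.RB.SP d y hd1 hNDy).1, k5⟩,
      ?_, ?_, (crit_iff hd y c').2 hHC, by omega, free_of hDis⟩
    · rw [cv_pol]
      exact hy
    · rw [cv_pol]
      exact hGy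

end Pool.Agent.Results.MP_8f2e1c_an.AnalyticFamilies
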