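import Mathlib
import Pool.Agent.H207.CS.Lim

/-! Density of hyperbolicity inside the strata of rational maps with prescribed coincidences of
critical points and of critical values, for maps for which the set of points not attracted by
attracting cycles has zero area, and a bound of the distance by the area in general. -/

set_option autoImplicit false

open Topology Filter MeasureTheory Metric Polynomial

namespace Pool.Agent.Results.MP_8f2e1c_an.CriticalStrata

/-- `f` is the rational map `P / Q` on the Riemann sphere. -/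
def IsRationalMap (P Q : Polynomial ℂ) (f : OnePoint ℂ → OnePoint ℂ) : Prop :=
  Continuous f ∧ ∀ z : ℂ, Q.eval z ≠ 0 →
    f (OnePoint.some z) = OnePoint.some (P.eval z / Q.eval z)

/-- `a` is a point of an attracting cycle of `f` whose period divides `n`: `f^n` fixes `a` and the
iterates of `f^n` converge to `a` uniformly on a neighbourhood of `a`. -/
def IsSink (f : OnePoint ℂ → OnePoint ℂ) (n : ℕ) (a : OnePoint ℂ) : Prop :=
  0 < n ∧ f^[n] a = a ∧
    ∃ U ∈ nhds a, ∀ V ∈ nhds a, ∀ᶠ k : ℕ in Filter.atTop, ∀ w ∈ U, f^[n * k] w ∈ V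

/-- `z` is in the basin of an attracting cycle of `f`. -/
def Attracted (f : OnePoint ℂ → OnePoint ℂ) (z : OnePoint ℂ) : Prop :=
  ∃ (n : ℕ) (a : OnePoint ℂ), IsSink f n a ∧
    Filter.Tendsto (fun k : ℕ => f^[n * k] z) Filter.atTop (nhds a)

/-- Spherical area. -/
noncomputable def sphericalArea (E : Set ℂ) : ENNReal :=
  ∫⁻ z in E, ENNReal.ofReal (1 / (1 + ‖z‖ ^ 2) ^ 2)

/-- all critical points of `f` are attracted by attracting cycles: word for word the condition of
the frozen statement S05373 -/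
def HyperbolicMap (f : OnePoint ℂ → OnePoint ℂ) : Prop :=
  ∀ c : OnePoint ℂ, (¬ ∃ U ∈ nhds c, Set.InjOn f U) →
    ∃ z : OnePoint ℂ, ∃ n : ℕ, 0 < n ∧ f^[n] z = z ∧
      (∃ U ∈ nhds z, ∀ w ∈ U,
        Filter.Tendsto (fun k : ℕ => f^[n * k] w) Filter.atTop (nhds z)) ∧
      Filter.Tendsto (fun k : ℕ => f^[n * k] c) Filter.atTop (nhds z)

/-- The linear factor of a point of the sphere: `X - a` for a finite point `a`, and `1` for the point
at infinity. -/
noncomputable def factor (z : OnePoint ℂ) : Polynomial ℂ :=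
  match z with
  | none => 1
  | some a => X - C a

/-- The list `c` consists of the `2 d - 2` critical points of the rational map `P / Q` of degree `d`
on the sphere, repeated according to their multiplicities: `P' Q - P Q'` is a constant multiple of
the product of the linear factors of the finite points of the list; the multiplicity of infinity as
a critical point is `2 d - 2` minus the degree of `P' Q - P Q'`. -/
def CriticalPoints {d : ℕ} (P Q : Polynomial ℂ) (c : Fin (2 * d - 2) → OnePoint ℂ) : Prop :=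
  ∃ K : ℂ, K ≠ 0 ∧ derivative P * Q - P * derivative Q = C K * ∏ i, factor (c i)

open Pool.Agent.H790R3.RB (CV hF cr ND wr sp pr hc HypTop Attd Sink pol wr_contDiff cr_smul_left)
open Pool.Agent.H207.CS

theorem factor_eq (z : OnePoint ℂ) : ∃ s : ℂ, s ≠ 0 ∧ factor z = C s * qf z := by
  induction z using OnePoint.rec with
  | infty =>
    refine ⟨-1, by norm_num, ?_⟩
    change (1 : ℂ[X]) = C (-1) * (-1)
    rw [map_neg, map_one]
    ring
  | coe z =>
    refine ⟨1, one_ne_zero, ?_⟩
    change (X - C z : ℂ[X]) = C 1 * (X - C z)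
    rw [map_one, one_mul]

theorem prod_factor {n : ℕ} (c : Fin n → OnePoint ℂ) :
    ∃ s : ℂ, s ≠ 0 ∧ ∏ i, factor (c i) = C s * ∏ i, qf (c i) := by
  choose s hs h using fun i => factor_eq (c i)
  refine ⟨∏ i, s i, Finset.prod_ne_zero_iff.2 fun i _ => hs i, ?_⟩
  rw [Finset.prod_congr rfl (fun i _ => h i), Finset.prod_mul_distrib, map_prod]

theorem crit_iff {d : ℕ} (hd : 2 ≤ d) (x : CV d) (c : Fin (2 * d - 2) → OnePoint ℂ) :
    CriticalPoints (pol x 0) (pol x 1) c ↔ HC x c := by
  obtain ⟨s, hs, hfac⟩ := prod_factor c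
  have hd0 : (d : ℂ) ≠ 0 := by
    have : d ≠ 0 := by omega
    exact_mod_cast this
  have hwn : ∀ ζ : ℂ, wr x (ζ, 1) =
      d * (derivative (pol x 0) * pol x 1 - pol x 0 * derivative (pol x 1)).eval ζ := fun ζ =>
    Pool.Agent.W440.RE.GENM.wr_wn x ζ
  have hq : ∀ ζ : ℂ, (∏ i, qf (c i)).eval ζ = ∏ i, cr (ζ, 1) (hc (c i)) := by
    intro ζ
    rw [eval_prod]
    exact Finset.prod_congr rfl fun i _ => qf_eval _ _
  constructor
  · rintro ⟨K, hK, h⟩
    refine ⟨d * (K * s), mul_ne_zero hd0 (mul_ne_zero hK hs), ?_⟩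
    have hdense : Dense {p : ℂ × ℂ | p.2 ≠ 0} :=
      Pool.Agent.W63.REGENX.dense_ne differentiable_snd (x₁ := ((0, 1) : ℂ × ℂ)) one_ne_zero
    have hc1 : Continuous (fun p : ℂ × ℂ => wr x p) := by
      have h1 : Continuous (fun q : CV d × (ℂ × ℂ) => wr q.1 q.2) := (wr_contDiff d 1).continuous
      have h2 := h1.comp (Continuous.prodMk_right x)
      exact h2
    have hc2 : Continuous (fun p : ℂ × ℂ => d * (K * s) * ∏ i, cr p (hc (c i))) := by
      refine continuous_const.mul (continuous_finsetProd _ fun i _ => ?_)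
      unfold cr
      fun_prop
    have heq := Continuous.ext_on hdense hc1 hc2 (by
      intro p hp
      have hp2 : p.2 ≠ 0 := hp
      have e : p = p.2 • ((p.1 / p.2, 1) : ℂ × ℂ) := by
        ext
        · simp [mul_div_cancel₀ _ hp2]
        · simp
      show wr x p = d * (K * s) * ∏ i, cr p (hc (c i))
      rw [e, (Pool.Agent.H790R3.RB.WR d x hd).1, hwn, h, hfac, eval_mul, eval_mul, eval_C, eval_C,
        hq]
      have e2 : ∀ i, cr (p.2 • ((p.1 / p.2, 1) : ℂ × ℂ)) (hc (c i)) =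
          p.2 * cr (p.1 / p.2, 1) (hc (c i)) := fun i => cr_smul_left _ _ _
      rw [Finset.prod_congr rfl (fun i _ => e2 i), Finset.prod_mul_distrib, Finset.prod_const,
        Finset.card_univ, Fintype.card_fin]
      ring)
    exact fun p => congrFun heq p
  · rintro ⟨K, hK, h⟩
    refine ⟨K / (d * s), div_ne_zero hK (mul_ne_zero hd0 hs), ?_⟩
    apply Polynomial.funext
    intro ζ
    have h1 := hwn ζ
    rw [h, ← hq] at h1
    apply mul_left_cancel₀ hd0
    rw [← h1, hfac, eval_mul, eval_mul, eval_C, eval_C]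
    field_simp

theorem close_vec {d : ℕ} {x y : CV d} {r : ℝ} (hr : 0 < r)
    (h : ∀ i : ℕ, ‖(pol x 0).coeff i - (pol y 0).coeff i‖ < r ∧
      ‖(pol x 1).coeff i - (pol y 1).coeff i‖ < r) : ‖x - y‖ < r := by
  rw [pi_norm_lt_iff hr]
  rintro ⟨i, j⟩
  have e1 := Pool.Agent.H790R3.RB.PQ.pol_coeff x i j
  have e2 := Pool.Agent.H790R3.RB.PQ.pol_coeff y i j
  rw [Pi.sub_apply, ← e1, ← e2]
  fin_cases i
  · exact (h j).1
  · exact (h j).2

theorem coeff_vec {d : ℕ} (x y : CV d) (i : Fin 2) (j : ℕ) :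
    ‖(pol x i).coeff j - (pol y i).coeff j‖ ≤ ‖x - y‖ := by
  by_cases hj : d < j
  · rw [Pool.Agent.H790R3.RB.PQ.pol_coeff_gt x i j hj,
      Pool.Agent.H790R3.RB.PQ.pol_coeff_gt y i j hj, sub_zero, norm_zero]
    exact norm_nonneg _
  · have e1 := Pool.Agent.H790R3.RB.PQ.pol_coeff x i ⟨j, by omega⟩
    have e2 := Pool.Agent.H790R3.RB.PQ.pol_coeff y i ⟨j, by omega⟩
    simp only at e1 e2
    rw [e1, e2]
    exact norm_le_pi_norm (x - y) (i, ⟨j, by omega⟩)

/-- **Result.** Let `d ≥ 2`.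
(A) Let `f = P / Q` be a rational map of degree `d` with critical points `c 0, …, c (2 d - 3)`, such
that the set of points of the plane which are not in the basins of attracting cycles has zero area.
Then `f` is a limit of hyperbolic rational maps `f' = P' / Q'` of degree `d` with critical points
`c' i` near `c i` and with exactly the same coincidences between critical points and between critical
values: `c' i = c' j` iff `c i = c j`, and `f' (c' i) = f' (c' j)` iff `f (c i) = f (c j)`.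
(B) Let `0 < γ < 1 / 2` and let `P₀ / Q₀` be a rational map of degree `d`. There are `C` and `δ > 0`
such that for every rational map `f = P / Q` of degree `d` with coefficients at distance less than `δ`
from those of `P₀ / Q₀`, with critical points `c i`, and every `0 < a < δ` such that the spherical
area of the set of points which are not in the basins of attracting cycles of `f` is at most `a`,
there is a hyperbolic rational map `f' = P' / Q'` of degree `d` with coefficients at distance at most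
`C a ^ γ` from those of `P / Q`, and with critical points `c' i` which have all the coincidences of
`f`: `c' i = c' j` if `c i = c j`, and `f' (c' i) = f' (c' j)` if `f (c i) = f (c j)`. -/
theorem result (d : ℕ) (hd : 2 ≤ d) :
    (∀ (P Q : Polynomial ℂ) (f : OnePoint ℂ → OnePoint ℂ) (c : Fin (2 * d - 2) → OnePoint ℂ),
      IsCoprime P Q → max P.natDegree Q.natDegree = d → IsRationalMap P Q f →
      CriticalPoints P Q c → volume {z : ℂ | ¬ Attracted f (OnePoint.some z)} = 0 →
      ∀ ε : ℝ, 0 < ε → ∀ U : Fin (2 * d - 2) → Set (OnePoint ℂ), (∀ i, U i ∈ nhds (c i)) →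
        ∃ (P' Q' : Polynomial ℂ) (f' : OnePoint ℂ → OnePoint ℂ)
          (c' : Fin (2 * d - 2) → OnePoint ℂ),
          IsCoprime P' Q' ∧ max P'.natDegree Q'.natDegree = d ∧
          (∀ i : ℕ, ‖P'.coeff i - P.coeff i‖ < ε ∧ ‖Q'.coeff i - Q.coeff i‖ < ε) ∧
          IsRationalMap P' Q' f' ∧ HyperbolicMap f' ∧ CriticalPoints P' Q' c' ∧
          (∀ i, c' i ∈ U i) ∧ (∀ i j, c' i = c' j ↔ c i = c j) ∧
          (∀ i j, f' (c' i) = f' (c' j) ↔ f (c i) = f (c j))) ∧
    (∀ (γ : ℝ) (P₀ Q₀ : Polynomial ℂ), 0 < γ → γ < 1 / 2 → IsCoprime P₀ Q₀ →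
      max P₀.natDegree Q₀.natDegree = d →
      ∃ C δ : ℝ, 0 < C ∧ 0 < δ ∧
        ∀ (P Q : Polynomial ℂ) (f : OnePoint ℂ → OnePoint ℂ)
          (c : Fin (2 * d - 2) → OnePoint ℂ), IsCoprime P Q → max P.natDegree Q.natDegree = d →
          (∀ i : ℕ, ‖P.coeff i - P₀.coeff i‖ < δ ∧ ‖Q.coeff i - Q₀.coeff i‖ < δ) →
          IsRationalMap P Q f → CriticalPoints P Q c →
          ∀ a : ℝ, 0 < a → a < δ →
            sphericalArea {z : ℂ | ¬ Attracted f (OnePoint.some z)} ≤ ENNReal.ofReal a →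
            ∃ (P' Q' : Polynomial ℂ) (f' : OnePoint ℂ → OnePoint ℂ)
              (c' : Fin (2 * d - 2) → OnePoint ℂ),
              IsCoprime P' Q' ∧ max P'.natDegree Q'.natDegree = d ∧
              (∀ i : ℕ, ‖P'.coeff i - P.coeff i‖ ≤ C * a ^ γ ∧
                ‖Q'.coeff i - Q.coeff i‖ ≤ C * a ^ γ) ∧
              IsRationalMap P' Q' f' ∧ HyperbolicMap f' ∧ CriticalPoints P' Q' c' ∧
              (∀ i j, c i = c j → c' i = c' j) ∧
              (∀ i j, f (c i) = f (c j) → f' (c' i) = f' (c' j))) := by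
  have hd1 : 1 ≤ d := by omega
  obtain ⟨h1, h2⟩ := Pool.Agent.H790R3.RB.PQ Pool.Agent.H790R3.RB.SP d hd1
  refine ⟨?_, ?_⟩
  · intro P Q f c hco hmax hf hc h0 ε hε U hU
    obtain ⟨x, hx, rfl, rfl, hfe⟩ := h2 P Q hco hmax
    have hfx : f = sp x := hfe f hf.1 hf.2
    subst hfx
    obtain ⟨x', c', g1, g2, g3, g4, g5, g6, g7⟩ :=
      lim_strata hd hx ((crit_iff hd x c).1 hc) h0 hε U hU
    obtain ⟨k1, k2, -, -, k5⟩ := h1 x' g2
    exact ⟨pol x' 0, pol x' 1, sp x', c', k1, k2,
      fun i => ⟨(coeff_vec x' x 0 i).trans_lt g1, (coeff_vec x' x 1 i).trans_lt g1⟩,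
      ⟨(Pool.Agent.H790R3.RB.SP d x' hd1 g2).1, k5⟩, g3, (crit_iff hd x' c').2 g4, g5, g6, g7⟩
  · intro γ P₀ Q₀ hγ hγ2 hco₀ hmax₀
    obtain ⟨x₀, hx₀, rfl, rfl, -⟩ := h2 P₀ Q₀ hco₀ hmax₀
    obtain ⟨C, δ, hC, hδ, H⟩ := p_PSEQ γ d x₀ hγ hγ2 hd hx₀
    refine ⟨C, δ, hC, hδ, ?_⟩
    intro P Q f c hco hmax hclose hf hc a ha haδ harea
    obtain ⟨x, hx, rfl, rfl, hfe⟩ := h2 P Q hco hmax
    have hfx : f = sp x := hfe f hf.1 hf.2
    subst hfx
    obtain ⟨x', c', g1, g2, g3, g4⟩ := H x (close_vec hδ hclose) c ((crit_iff hd x c).1 hc) a ha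
      haδ harea
    obtain ⟨k1, k2, -, -, k5⟩ := h1 x' g2
    exact ⟨pol x' 0, pol x' 1, sp x', c', k1, k2,
      fun i => ⟨(coeff_vec x' x 0 i).trans g1, (coeff_vec x' x 1 i).trans g1⟩,
      ⟨(Pool.Agent.H790R3.RB.SP d x' hd1 g2).1, k5⟩, g3, (crit_iff hd x' c').2 g4.hc,
      g4.h1, g4.h2⟩

end Pool.Agent.Results.MP_8f2e1c_an.CriticalStrata
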