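import Mathlib
import Pool.Agent.H207.GP.FamB

/-!
# Escaping critical points in analytic families of polynomials

Polynomials of degree `n + 1` (`n ≥ 1`) have `n` critical points in the plane. We consider such a
polynomial `T` whose filled Julia set has small area, and `k` analytic conditions on the critical
points and the coefficients of a polynomial which are satisfied by `T`.

* `UniformInVarieties`: near `T` there is a polynomial which satisfies the `k` conditions and has at
  least `n - k` escaping critical points with pairwise disjoint orbits. The distance to `T` is at most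
  a constant times the square root of the area of the filled Julia set of `T` (and the critical points
  move by at most a constant times its `n`-th root); the constant depends only on `n` and on a bound
  for the coefficients, not on the conditions.
* `KeepPreperiodic`: in particular, if `T` has some preperiodic critical points, there is such a
  polynomial for which these critical points satisfy the same relations, while ALL the other critical
  points escape, with pairwise disjoint orbits.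
* `HolomorphicFamilies`: if `T` is a member of a holomorphic family of polynomials with `m` parameters,
  constrained by `k` equations, which is isolated in its affine conjugacy class, and if the filled
  Julia set of `T` has zero area, then there are parameters arbitrarily close to the one of `T` which
  satisfy the equations and for which at least `m - k` critical points escape, with pairwise disjoint
  orbits.
-/

set_option autoImplicit false

open Topology Filter Metric Set Polynomial MeasureTheory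

namespace Pool.Agent.Results.MP_28f8a1_an.EscapeInAnalyticFamilies

/-- The polynomial as a self-map of the plane. -/
noncomputable def map (T : ℂ[X]) : ℂ → ℂ := fun z => T.eval z

/-- The orbit of `z` tends to infinity. -/
def Escapes (T : ℂ[X]) (z : ℂ) : Prop :=
  Tendsto (fun k : ℕ => ‖(map T)^[k] z‖) atTop atTop

/-- The filled Julia set. -/
def filledJulia (T : ℂ[X]) : Set ℂ := {z | ¬ Escapes T z}

/-- `T` has degree `n + 1`, and `c 0, …, c (n - 1)` are its critical points, listed with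
multiplicity. -/
def CriticalPoints {n : ℕ} (T : ℂ[X]) (c : Fin n → ℂ) : Prop :=
  T.natDegree = n + 1 ∧
    derivative T = C (((n : ℂ) + 1) * T.leadingCoeff) * ∏ i, (X - C (c i))

/-- The critical points `c i` with `i ∈ I` escape, and their orbits are pairwise disjoint. -/
def EscapeFreely {n : ℕ} (T : ℂ[X]) (c : Fin n → ℂ) (I : Finset (Fin n)) : Prop :=
  (∀ i ∈ I, Escapes T (c i)) ∧ ∀ i ∈ I, ∀ j ∈ I, i ≠ j → ∀ p q : ℕ,
    (map T)^[p] (c i) ≠ (map T)^[q] (c j)

/-- The coefficients of a polynomial of degree at most `n + 1`. -/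
noncomputable def coeffs (n : ℕ) (T : ℂ[X]) : Fin (n + 2) → ℂ := fun i => T.coeff i

/-- The polynomial `S`, with critical points `s`, is close to the polynomial `T`, with critical points
`c`: the coefficients of `T` and `S` are `ε`-close, the two leading coefficients are the same, and the
critical points are `C ε ^ (1 / n)`-close. -/
def Near {n : ℕ} (C ε : ℝ) (T : ℂ[X]) (c : Fin n → ℂ) (S : ℂ[X]) (s : Fin n → ℂ) : Prop :=
  CriticalPoints S s ∧ S.coeff (n + 1) = T.coeff (n + 1) ∧ S.coeff n = T.coeff n ∧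
    (∀ j : ℕ, ‖S.coeff j - T.coeff j‖ < ε) ∧ ∀ i, ‖s i - c i‖ < C * ε ^ (n : ℝ)⁻¹

/-- Uniform distance to polynomials with `n - k` freely escaping critical points, in the zero sets of
`k` analytic functions of the critical points and the coefficients. -/
def UniformInVarieties : Prop :=
  ∀ (n : ℕ) (A : ℝ), 1 ≤ n → 0 < A → ∃ C : ℝ, 0 < C ∧
    ∀ (T : ℂ[X]) (c : Fin n → ℂ), CriticalPoints T c → (∀ j : ℕ, ‖T.coeff j‖ ≤ A) →
    1 / A ≤ ‖T.leadingCoeff‖ → volume (filledJulia T) < ⊤ ∧
    ∀ ε : ℝ, C * Real.sqrt (volume (filledJulia T)).toReal < ε → ε ≤ 1 →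
    ∀ (k : ℕ) (G : Fin k → (Fin n → ℂ) × (Fin (n + 2) → ℂ) → ℂ),
      (∀ j, DifferentiableOn ℂ (G j) {p | (∀ i, ‖p.1 i - c i‖ < C * ε ^ (n : ℝ)⁻¹) ∧
        ∀ i, ‖p.2 i - coeffs n T i‖ < ε}) →
      (∀ j, G j (c, coeffs n T) = 0) →
      ∃ (S : ℂ[X]) (s : Fin n → ℂ), Near C ε T c S s ∧
        (∀ j, G j (s, coeffs n S) = 0) ∧ ∃ I : Finset (Fin n), n - k ≤ I.card ∧ EscapeFreely S s I

/-- Some critical points stay preperiodic, all the others escape freely. -/
def KeepPreperiodic : Prop :=
  ∀ (n : ℕ) (A : ℝ), 1 ≤ n → 0 < A → ∃ C : ℝ, 0 < C ∧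
    ∀ (T : ℂ[X]) (c : Fin n → ℂ), CriticalPoints T c → (∀ j : ℕ, ‖T.coeff j‖ ≤ A) →
    1 / A ≤ ‖T.leadingCoeff‖ →
    ∀ ε : ℝ, C * Real.sqrt (volume (filledJulia T)).toReal < ε → ε ≤ 1 →
    ∀ (P : Finset (Fin n)) (a b : Fin n → ℕ),
      (∀ i ∈ P, a i < b i ∧ (map T)^[a i] (c i) = (map T)^[b i] (c i)) →
      ∃ (S : ℂ[X]) (s : Fin n → ℂ), Near C ε T c S s ∧
        (∀ i ∈ P, (map S)^[a i] (s i) = (map S)^[b i] (s i)) ∧ EscapeFreely S s Pᶜ

/-- Holomorphic families of polynomials. -/
def HolomorphicFamilies : Prop :=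
  ∀ (n m k : ℕ), 1 ≤ n → ∀ (Λ : Set (Fin m → ℂ)) (P : (Fin m → ℂ) → ℂ[X])
    (G : Fin k → (Fin m → ℂ) → ℂ), IsOpen Λ →
    (∀ j : ℕ, DifferentiableOn ℂ (fun l => (P l).coeff j) Λ) →
    (∀ l ∈ Λ, (P l).natDegree = n + 1) → (∀ j, DifferentiableOn ℂ (G j) Λ) →
    ∀ l₀ ∈ Λ, (∀ j, G j l₀ = 0) →
    -- the parameter is isolated among those of the conjugate polynomials
    (∀ᶠ l in 𝓝 l₀, (∀ j, G j l = 0) →
      (∃ α β : ℂ, α ≠ 0 ∧ ∀ z, map (P l) (α * z + β) = α * map (P l₀) z + β) → l = l₀) →
    volume (filledJulia (P l₀)) = 0 → ∀ ε : ℝ, 0 < ε →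
    ∃ l ∈ Λ, ‖l - l₀‖ < ε ∧ (∀ j, G j l = 0) ∧ ∃ (c : Fin n → ℂ) (I : Finset (Fin n)),
      CriticalPoints (P l) c ∧ m - k ≤ I.card ∧ EscapeFreely (P l) c I

theorem result : UniformInVarieties ∧ KeepPreperiodic ∧ HolomorphicFamilies := by
  have hA1 : ∀ {A : ℝ}, 0 < A → ∀ {y : ℝ}, 1 / A ≤ y → 1 / max A 1 ≤ y := by
    intro A hA y hy
    exact (one_div_le_one_div_of_le hA (le_max_left _ _)).trans hy
  have hlead : ∀ {n : ℕ} {T S : ℂ[X]} {c s : Fin n → ℂ}, CriticalPoints T c → CriticalPoints S s →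
      S.leadingCoeff = T.leadingCoeff → S.coeff (n + 1) = T.coeff (n + 1) := by
    intro n T S c s hT hS h
    rw [Polynomial.leadingCoeff, Polynomial.leadingCoeff, hT.1, hS.1] at h
    exact h
  refine ⟨?_, ?_, ?_⟩
  · intro n A hn hA
    obtain ⟨C, hC, h⟩ := Pool.Agent.H207.GP.coefA n (max A 1) hn (le_max_right _ _)
    refine ⟨C, hC, fun T c hc hTA hTl => ⟨?_, ?_⟩⟩
    · exact Pool.Agent.X167.Sh.K_fin T (by rw [hc.1]; omega)
    · intro ε hε hε1 k G hG hG0
      obtain ⟨S, s, hS, h1, h2, h3, h3', h4, J, hJ, hF⟩ := h T c hc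
        (fun j => (hTA j).trans (le_max_left _ _)) (hA1 hA hTl) ε hε hε1 k G hG hG0
      exact ⟨S, s, ⟨hS, hlead hc hS h1, h2, h3, h3'⟩, h4, J, by omega, hF⟩
  · intro n A hn hA
    obtain ⟨C, hC, h⟩ := Pool.Agent.H207.GP.preA n (max A 1) hn (le_max_right _ _)
    refine ⟨C, hC, fun T c hc hTA hTl ε hε hε1 P a b hP => ?_⟩
    obtain ⟨S, s, hS, h1, h2, h3, h3', h4, hF⟩ := h T c hc
      (fun j => (hTA j).trans (le_max_left _ _)) (hA1 hA hTl) ε hε hε1 P a b hP
    exact ⟨S, s, ⟨hS, hlead hc hS h1, h2, h3, h3'⟩, h4, hF⟩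
  · intro n m k hn Λ P G hΛ hP hdeg hG l₀ hl₀ hG₀ hiso h0 ε hε
    obtain ⟨r, hr, hb⟩ := Metric.eventually_nhds_iff_ball.1 hiso
    obtain ⟨l, hl, h1, h2, c, J, h3, h4, h5⟩ := Pool.Agent.H207.GP.famB hn hΛ hP hdeg hG hl₀ hG₀ hr
      (fun l _ hlr hGl hconj => hb l (by rw [mem_ball, dist_eq_norm]; exact hlr) hGl hconj) h0 hε
    exact ⟨l, hl, h1, h2, c, J, h3, by omega, h5⟩

end Pool.Agent.Results.MP_28f8a1_an.EscapeInAnalyticFamilies
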